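import Pool.Agent.Helper32_NJ.Stmts
import Pool.Agent.Helper21_LEG.Loc

set_option autoImplicit false

/-! # Squad NJ, modules TW1 and TW2 -/

namespace Pool.Agent.NJ.H21

open Pool.Agent.NJ
open Pool.Agent.LEG (odd_sq one_mod two_not sq_even sqf_half even_of_sq)

theorem sqdiv {a A b : ℤ} (hA : A ≠ 0) (h : a * A ^ 2 = b ^ 2) : ∃ c, a = c ^ 2 := by
  have h1 : A ^ 2 ∣ b ^ 2 := ⟨a, by rw [← h]; ring⟩
  obtain ⟨c, rfl⟩ := (Int.pow_dvd_pow_iff two_ne_zero).1 h1
  refine ⟨c, ?_⟩
  have h2 : a * A ^ 2 = c ^ 2 * A ^ 2 := by rw [h]; ring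
  exact mul_right_cancel₀ (pow_ne_zero 2 hA) h2

theorem odd_part {d R B : ℤ} (h : R = d * B ^ 2) (hR : ¬ (2 : ℤ) ∣ R) : ∃ k, R = d + 8 * k := by
  have hB : ¬ (2 : ℤ) ∣ B := fun h1 => hR (by
    rw [h]; exact (dvd_pow h1 two_ne_zero).mul_left _)
  obtain ⟨j, hj⟩ := odd_sq hB
  exact ⟨d * j, by rw [h, hj]; ring⟩

theorem even_part {d M B : ℤ} (h : 2 * M = d * B ^ 2) (hM : ¬ (2 : ℤ) ∣ M) :
    ∃ d' k, d = 2 * d' ∧ M = d' + 8 * k := by
  have hB : ¬ (2 : ℤ) ∣ B := by
    rintro ⟨B', rfl⟩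
    apply hM
    exact ⟨d * B' ^ 2, by linarith⟩
  have h1 : (2 : ℤ) ∣ d := by
    rcases Int.prime_two.dvd_or_dvd (⟨M, h.symm⟩ : (2 : ℤ) ∣ d * B ^ 2) with h2 | h2
    · exact h2
    · exact absurd (even_of_sq h2) hB
  obtain ⟨d', rfl⟩ := h1
  obtain ⟨j, hj⟩ := odd_sq hB
  exact ⟨d', d' * j, rfl, by rw [hj] at h; linarith⟩

theorem quarter {d N B : ℤ} (h : 4 * N = d * B ^ 2) (hd : Squarefree d) :
    ∃ B', B = 2 * B' ∧ N = d * B' ^ 2 := by
  have h1 : (2 : ℤ) ∣ B := by
    by_contra hB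
    have h2 : (2 : ℤ) ∣ d := by
      rcases Int.prime_two.dvd_or_dvd (⟨2 * N, by rw [← h]; ring⟩ : (2 : ℤ) ∣ d * B ^ 2) with h3 | h3
      · exact h3
      · exact absurd (even_of_sq h3) hB
    obtain ⟨d', hd'⟩ := h2
    have h3 := sqf_half hd hd'
    rw [hd'] at h
    have h4 : 2 * N = d' * B ^ 2 := by linarith
    rcases Int.prime_two.dvd_or_dvd (⟨N, h4.symm⟩ : (2 : ℤ) ∣ d' * B ^ 2) with h5 | h5
    · exact h3 h5
    · exact hB (even_of_sq h5)
  obtain ⟨B', rfl⟩ := h1
  exact ⟨B', rfl, by linarith⟩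

theorem ndvd_mul {a b : ℤ} (ha : ¬ (2 : ℤ) ∣ a) (hb : ¬ (2 : ℤ) ∣ b) : ¬ (2 : ℤ) ∣ a * b :=
  fun h => (Int.prime_two.dvd_or_dvd h).elim ha hb

/-- `2 odd = square` is impossible -/
theorem two_odd {N s : ℤ} (hN : ¬ (2 : ℤ) ∣ N) (h : 2 * N = s ^ 2) : False :=
  two_not (N := 1) (by norm_num) hN (by rw [one_mul]; exact h)

theorem tw1 : TW1Stmt := by
  intro e₂ e₃ d₁ d₂ r s w A B h he2 he3
  obtain ⟨s0, w0, cop, eq, sq1, sq2, h1, h2⟩ := h
  obtain ⟨m, rfl⟩ := he3
  obtain ⟨k, hk⟩ : ∃ k, e₂ = 2 * (8 * k + 1) := ⟨(e₂ - 2) / 16, by omega⟩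
  subst hk
  have hB0 : B ≠ 0 := by
    rintro rfl
    rw [h2] at eq
    simp at eq
    exact w0 eq
  -- the product of the two others
  have hN : ∃ c, (r * (r - 16 * m * s ^ 2)) * d₂ = c ^ 2 := by
    refine sqdiv hB0 (b := w) ?_
    rw [eq, h2]
    ring
  obtain ⟨c, hc⟩ := hN
  by_cases hr : (2 : ℤ) ∣ r
  · have hs : ¬ (2 : ℤ) ∣ s := by
      intro h3
      exact Int.prime_two.not_isUnit (cop.isUnit_of_dvd' hr h3)
    obtain ⟨z, hz⟩ := odd_sq hs
    obtain ⟨r', rfl⟩ := hr
    by_cases hr' : (2 : ℤ) ∣ r'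
    · right
      obtain ⟨r1, rfl⟩ := hr'
      have e1 : 2 * (2 * r1 - (8 * k + 1) * s ^ 2) = d₂ * B ^ 2 := by rw [← h2]; ring
      have o1 : ¬ (2 : ℤ) ∣ 2 * r1 - (8 * k + 1) * s ^ 2 := by
        rw [hz]
        intro h3
        have : (2 : ℤ) ∣ 1 := by
          have e : (1 : ℤ) = 2 * (r1 - 4 * k * (8 * z + 1) - 4 * z) -
            (2 * r1 - (8 * k + 1) * (8 * z + 1)) := by ring
          rw [e]
          exact dvd_sub (dvd_mul_right _ _) h3
        norm_num at this
      obtain ⟨d', j, hd', hj⟩ := even_part e1 o1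
      have o2 : ¬ (2 : ℤ) ∣ d' := sqf_half sq2 hd'
      rw [hd'] at hc
      obtain ⟨c0, hc0⟩ := sq_even (N := 4 * (r1 * (r1 - 4 * m * s ^ 2) * (2 * d'))) (s := c)
        (by rw [← hc]; ring)
      obtain ⟨c1, hc1⟩ := sq_even hc0
      have h2r1 : (2 : ℤ) ∣ r1 := by
        by_contra h3
        refine two_not (ndvd_mul h3 ?_) o2 hc1
        intro h4
        have := dvd_add h4 (⟨2 * m * s ^ 2, by ring⟩ : (2 : ℤ) ∣ 4 * m * s ^ 2)
        rw [sub_add_cancel] at this
        exact h3 this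
      obtain ⟨r2, rfl⟩ := h2r1
      obtain ⟨c2, hc2⟩ := sq_even (N := r2 * (r2 - 2 * m * s ^ 2) * (2 * d')) (s := c1)
        (by rw [← hc1]; ring)
      have h2r2 : (2 : ℤ) ∣ r2 := by
        by_contra h3
        refine two_not (ndvd_mul h3 ?_) o2 hc2
        intro h4
        have := dvd_add h4 (⟨m * s ^ 2, by ring⟩ : (2 : ℤ) ∣ 2 * m * s ^ 2)
        rw [sub_add_cancel] at this
        exact h3 this
      obtain ⟨r3, rfl⟩ := h2r2
      rw [hz] at hj
      have e3 : d' = 8 * (r3 - z - 8 * (k * z) - k - j) - 1 := by linarith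
      omega
    · left
      have e1 : 4 * ((r' * (r' - 8 * m * s ^ 2)) * d₂) = c ^ 2 := by rw [← hc]; ring
      obtain ⟨c0, hc0⟩ := sq_even e1
      obtain ⟨j, hj⟩ := odd_sq hr'
      have hd2 : d₂ % 8 = 1 := one_mod (N := r' * (r' - 8 * m * s ^ 2)) (n := j - m * r' * s ^ 2)
        (by linear_combination hj) sq2 hc0
      refine ⟨hd2, ?_⟩
      have hBe : (2 : ℤ) ∣ B := by
        by_contra hB
        have h3 : (2 : ℤ) ∣ d₂ * B ^ 2 := ⟨r' - (8 * k + 1) * s ^ 2, by rw [← h2]; ring⟩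
        rcases Int.prime_two.dvd_or_dvd h3 with h4 | h4
        · omega
        · exact hB (even_of_sq h4)
      obtain ⟨B', rfl⟩ := hBe
      have hr'e : r' = (8 * k + 1) * s ^ 2 + 2 * (d₂ * B' ^ 2) := by linarith
      obtain ⟨e, he⟩ : ∃ e, d₂ = 8 * e + 1 := ⟨d₂ / 8, by omega⟩
      have e4 : 2 * r' = d₁ * A ^ 2 := h1
      obtain ⟨d1', j1, hd1', hj1⟩ := even_part e4 hr'
      by_cases hB' : (2 : ℤ) ∣ B'
      · right; right; left
        obtain ⟨b, rfl⟩ := hB'
        rw [hz] at hr'e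
        have : d1' = 8 * (8 * (k * z) + k + z + d₂ * b ^ 2 - j1) + 1 := by linarith
        omega
      · right; right; right
        obtain ⟨b, hb⟩ := odd_sq hB'
        rw [hz, hb, he] at hr'e
        have : d1' = 8 * (8 * (k * z) + k + z + 16 * (e * b) + 2 * e + 2 * b - j1) + 3 := by
          linarith
        omega
  · left
    obtain ⟨j, hj⟩ := odd_sq hr
    have hd2 : d₂ % 8 = 1 := one_mod (N := r * (r - 16 * m * s ^ 2)) (n := j - 2 * m * r * s ^ 2)
      (by linear_combination hj) sq2 hc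
    refine ⟨hd2, ?_⟩
    have hR2 : ¬ (2 : ℤ) ∣ r - 2 * (8 * k + 1) * s ^ 2 := by
      intro h3
      have := dvd_add h3 (⟨(8 * k + 1) * s ^ 2, by ring⟩ : (2 : ℤ) ∣ 2 * (8 * k + 1) * s ^ 2)
      rw [sub_add_cancel] at this
      exact hr this
    obtain ⟨j2, hj2⟩ := odd_part h2 hR2
    obtain ⟨j1, hj1⟩ := odd_part h1 hr
    by_cases hs : (2 : ℤ) ∣ s
    · left
      obtain ⟨t, rfl⟩ := hs
      have : d₁ = d₂ + 8 * (j2 - j1 + 8 * (k * t ^ 2) + t ^ 2) := by linarith
      omega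
    · right; left
      obtain ⟨z, hz⟩ := odd_sq hs
      rw [hz] at hj2
      have : d₁ = d₂ + 2 + 8 * (j2 - j1 + 16 * (k * z) + 2 * k + 2 * z) := by linarith
      omega

theorem tw2 : TW2Stmt := by
  intro e₂ e₃ d₁ d₂ r s w A B h he2 he3
  obtain ⟨s0, w0, cop, eq, sq1, sq2, h1, h2⟩ := h
  obtain ⟨k, hk⟩ : ∃ k, e₂ = 4 * (8 * k - 1) := ⟨(e₂ + 4) / 32, by omega⟩
  obtain ⟨l, hl⟩ : ∃ l, e₃ = 2 * (8 * l - 1) := ⟨(e₃ + 2) / 16, by omega⟩
  subst hk
  subst hl
  have hB0 : B ≠ 0 := by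
    rintro rfl
    rw [h2] at eq
    simp at eq
    exact w0 eq
  have hA0 : A ≠ 0 := by
    rintro rfl
    rw [h1] at eq
    simp at eq
    exact w0 eq
  by_cases hs : (2 : ℤ) ∣ s
  · -- s even
    left
    have hr : ¬ (2 : ℤ) ∣ r := fun h3 => Int.prime_two.not_isUnit (cop.isUnit_of_dvd' h3 hs)
    obtain ⟨t, rfl⟩ := hs
    obtain ⟨j, hj⟩ := odd_sq hr
    have hw : ¬ (2 : ℤ) ∣ w := by
      intro h3
      have h4 : (2 : ℤ) ∣ r * (r - 4 * (8 * k - 1) * (2 * t) ^ 2) *
          (r - 2 * (8 * l - 1) * (2 * t) ^ 2) := by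
        rw [← eq]; exact dvd_pow h3 two_ne_zero
      refine ndvd_mul (ndvd_mul hr ?_) ?_ h4
      · intro h5
        have := dvd_add h5 (⟨2 * (8 * k - 1) * (2 * t) ^ 2, by ring⟩ :
          (2 : ℤ) ∣ 4 * (8 * k - 1) * (2 * t) ^ 2)
        rw [sub_add_cancel] at this
        exact hr this
      · intro h5
        have := dvd_add h5 (⟨(8 * l - 1) * (2 * t) ^ 2, by ring⟩ :
          (2 : ℤ) ∣ 2 * (8 * l - 1) * (2 * t) ^ 2)
        rw [sub_add_cancel] at this
        exact hr this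
    obtain ⟨y, hy⟩ := odd_sq hw
    have hr1 : ∃ n, r = 8 * n + 1 := by
      have e1 : r * (r - 4 * (8 * k - 1) * (2 * t) ^ 2) * (r - 2 * (8 * l - 1) * (2 * t) ^ 2) =
          r * r ^ 2 + 8 * (-(2 * (8 * k - 1) * t ^ 2 * r * (r - 2 * (8 * l - 1) * (2 * t) ^ 2)) -
            (8 * l - 1) * t ^ 2 * r * r) := by ring
      rw [hy, e1, hj] at eq
      exact ⟨y - r * j - (-(2 * (8 * k - 1) * t ^ 2 * r * (r - 2 * (8 * l - 1) * (2 * t) ^ 2)) -
            (8 * l - 1) * t ^ 2 * r * r), by linarith⟩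
    obtain ⟨n, hn⟩ := hr1
    obtain ⟨j1, hj1⟩ := odd_part h1 hr
    have hR2 : ¬ (2 : ℤ) ∣ r - 4 * (8 * k - 1) * (2 * t) ^ 2 := by
      intro h5
      have := dvd_add h5 (⟨2 * (8 * k - 1) * (2 * t) ^ 2, by ring⟩ :
        (2 : ℤ) ∣ 4 * (8 * k - 1) * (2 * t) ^ 2)
      rw [sub_add_cancel] at this
      exact hr this
    obtain ⟨j2, hj2⟩ := odd_part h2 hR2
    refine ⟨?_, Or.inl ?_⟩
    · have : d₂ = 1 + 8 * (n - j2 - 16 * (k * t ^ 2) + 2 * t ^ 2) := by linarith
      omega
    · omega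
  · -- s odd
    obtain ⟨z, hz⟩ := odd_sq hs
    by_cases hr : (2 : ℤ) ∣ r
    · obtain ⟨r', rfl⟩ := hr
      by_cases hr' : (2 : ℤ) ∣ r'
      · -- 4 ∣ r
        obtain ⟨r1, rfl⟩ := hr'
        have e1 : 4 * (r1 - (8 * k - 1) * s ^ 2) = d₂ * B ^ 2 := by rw [← h2]; ring
        obtain ⟨B1, rfl, hB1⟩ := quarter e1 sq2
        have hB10 : B1 ≠ 0 := by rintro rfl; exact hB0 (by ring)
        have ew : w ^ 2 = 4 * (4 * (2 * (r1 * (d₂ * B1 ^ 2) * (2 * r1 - (8 * l - 1) * s ^ 2)))) := by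
          rw [eq, h2]; ring
        obtain ⟨w1, hw1⟩ := sq_even ew.symm
        obtain ⟨w2, hw2⟩ := sq_even hw1
        by_cases hr1 : (2 : ℤ) ∣ r1
        · -- 8 ∣ r
          obtain ⟨r2, rfl⟩ := hr1
          have o2 : ¬ (2 : ℤ) ∣ 2 * r2 - (8 * k - 1) * s ^ 2 := by
            rw [hz]
            intro h3
            have e : (1 : ℤ) = (2 * r2 - (8 * k - 1) * (8 * z + 1)) -
              2 * (r2 - 4 * k * (8 * z + 1) + 4 * z) := by ring
            have : (2 : ℤ) ∣ 1 := by rw [e]; exact dvd_sub h3 (dvd_mul_right _ _)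
            norm_num at this
          obtain ⟨j2, hj2⟩ := odd_part hB1 o2
          have ew3 : 4 * (r2 * (2 * r2 - (8 * k - 1) * s ^ 2) *
              (2 * (2 * r2) - (8 * l - 1) * s ^ 2)) = w2 ^ 2 := by
            rw [← hw2, ← hB1]; ring
          obtain ⟨w3, hw3⟩ := sq_even ew3
          by_cases hr2 : (2 : ℤ) ∣ r2
          · -- 16 ∣ r, in fact 32 ∣ r
            obtain ⟨r3, rfl⟩ := hr2
            have hr3 : (2 : ℤ) ∣ r3 := by
              by_contra h3
              have e : 2 * (r3 * (2 * (2 * r3) - (8 * k - 1) * s ^ 2) *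
                (2 * (2 * (2 * r3)) - (8 * l - 1) * s ^ 2)) = w3 ^ 2 := by rw [← hw3]; ring
              refine two_odd (ndvd_mul (ndvd_mul h3 o2) ?_) e
              rw [hz]
              intro h4
              have e : (1 : ℤ) = (2 * (2 * (2 * r3)) - (8 * l - 1) * (8 * z + 1)) -
                2 * (2 * (2 * r3) - 4 * l * (8 * z + 1) + 4 * z) := by ring
              have : (2 : ℤ) ∣ 1 := by rw [e]; exact dvd_sub h4 (dvd_mul_right _ _)
              norm_num at this
            obtain ⟨r4, rfl⟩ := hr3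
            left
            rw [hz] at hj2
            refine ⟨by
              have : d₂ = 1 + 8 * (r4 - 8 * (k * z) - k + z - j2) := by linarith
              omega, Or.inr ?_⟩
            obtain ⟨w4, hw4⟩ := sq_even (N := r4 * (2 * (2 * (2 * r4)) - (8 * k - 1) * s ^ 2) *
              (2 * (2 * (2 * (2 * r4))) - (8 * l - 1) * s ^ 2)) (s := w3) (by rw [← hw3]; ring)
            -- 32 r4 = d1 A^2
            set N : ℤ := (2 * (2 * (2 * r4)) - (8 * k - 1) * s ^ 2) *
              (2 * (2 * (2 * (2 * r4))) - (8 * l - 1) * s ^ 2) with hNdef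
            have hN1 : ∃ n, N = 8 * n + 1 := by
              rw [hNdef, hz]
              exact ⟨(r4 - 8 * (k * z) - k + z) * (2 * (2 * (2 * (2 * r4))) -
                (8 * l - 1) * (8 * z + 1)) + (2 * r4 - 8 * (l * z) - l + z), by ring⟩
            obtain ⟨n, hn⟩ := hN1
            have h5 : (2 * d₁ * N) * A ^ 2 = (8 * w4) ^ 2 := by
              have h6 : r4 * N = w4 ^ 2 := by rw [← hw4, hNdef]; ring
              calc (2 * d₁ * N) * A ^ 2 = 2 * N * (d₁ * A ^ 2) := by ring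
                _ = 2 * N * (2 * (2 * (2 * (2 * (2 * r4))))) := by rw [← h1]
                _ = 64 * (r4 * N) := by ring
                _ = (8 * w4) ^ 2 := by rw [h6]; ring
            obtain ⟨c, hc⟩ := sqdiv hA0 h5
            have hNo : ¬ (2 : ℤ) ∣ N := by omega
            have hd1e : (2 : ℤ) ∣ d₁ := by
              by_contra h6
              exact two_odd (ndvd_mul h6 hNo) (s := c) (by rw [← hc]; ring)
            obtain ⟨d', hd'⟩ := hd1e
            have h7 : 4 * (N * d') = c ^ 2 := by rw [← hc, hd']; ring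
            obtain ⟨c', hc'⟩ := sq_even h7
            have hsq : Squarefree d' := sq1.squarefree_of_dvd ⟨2, by rw [hd']; ring⟩
            have := one_mod hn hsq hc'
            omega
          · -- v(r) = 3
            right; left
            have o3 : ¬ (2 : ℤ) ∣ 2 * (2 * r2) - (8 * l - 1) * s ^ 2 := by
              rw [hz]
              intro h4
              have e : (1 : ℤ) = (2 * (2 * r2) - (8 * l - 1) * (8 * z + 1)) -
                2 * (2 * r2 - 4 * l * (8 * z + 1) + 4 * z) := by ring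
              have : (2 : ℤ) ∣ 1 := by rw [e]; exact dvd_sub h4 (dvd_mul_right _ _)
              norm_num at this
            have hw3o : ¬ (2 : ℤ) ∣ w3 := by
              intro h4
              have := ndvd_mul (ndvd_mul hr2 o2) o3
              rw [hw3] at this
              exact this (dvd_pow h4 two_ne_zero)
            obtain ⟨y, hy⟩ := odd_sq hw3o
            obtain ⟨q, hq⟩ := odd_sq hr2
            -- r2 (2 r2 + 1)(4 r2 + 1) = 1 mod 8
            obtain ⟨a, ha⟩ : ∃ a, 2 * r2 - (8 * k - 1) * s ^ 2 = 2 * r2 + 1 + 8 * a :=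
              ⟨z - 8 * (k * z) - k, by rw [hz]; ring⟩
            obtain ⟨b, hb⟩ : ∃ b, 2 * (2 * r2) - (8 * l - 1) * s ^ 2 = 4 * r2 + 1 + 8 * b :=
              ⟨z - 8 * (l * z) - l, by rw [hz]; ring⟩
            rw [ha, hb, hy] at hw3
            have hmod : (r2 * (2 * r2 + 1) * (4 * r2 + 1)) % 8 = 1 := by
              have e : r2 * (2 * r2 + 1) * (4 * r2 + 1) = 8 * (y - r2 * a * (4 * r2 + 1 + 8 * b) -
                r2 * (2 * r2 + 1) * b) + 1 := by linarith
              omega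
            have hr2m : r2 % 8 = 1 ∨ r2 % 8 = 3 ∨ r2 % 8 = 5 ∨ r2 % 8 = 7 := by omega
            have hr23 : r2 % 8 = 3 := by
              rcases hr2m with h4 | h4 | h4 | h4
              · exfalso; simp [Int.mul_emod, Int.add_emod, h4] at hmod
              · exact h4
              · exfalso; simp [Int.mul_emod, Int.add_emod, h4] at hmod
              · exfalso; simp [Int.mul_emod, Int.add_emod, h4] at hmod
            omega
        · -- v(r) = 2
          have hM3 : ∃ b, 2 * r1 - (8 * l - 1) * s ^ 2 = 2 * r1 + 1 + 8 * b :=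
            ⟨z - 8 * (l * z) - l, by rw [hz]; ring⟩
          obtain ⟨b, hb⟩ := hM3
          have h5 : (2 * (r1 * d₂ * (2 * r1 + 1 + 8 * b))) * B1 ^ 2 = w2 ^ 2 := by
            rw [← hw2, hb]; ring
          obtain ⟨c, hc⟩ := sqdiv hB10 h5
          have o3 : ¬ (2 : ℤ) ∣ 2 * r1 + 1 + 8 * b := by omega
          have hd2e : (2 : ℤ) ∣ d₂ := by
            by_contra h6
            exact two_odd (ndvd_mul (ndvd_mul hr1 h6) o3) hc
          obtain ⟨d', hd'⟩ := hd2e
          have o4 : ¬ (2 : ℤ) ∣ d' := sqf_half sq2 hd'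
          have h7 : 4 * (r1 * d' * (2 * r1 + 1 + 8 * b)) = c ^ 2 := by rw [← hc, hd']; ring
          obtain ⟨c', hc'⟩ := sq_even h7
          have hc'o : ¬ (2 : ℤ) ∣ c' := by
            intro h8
            have := ndvd_mul (ndvd_mul hr1 o4) o3
            rw [hc'] at this
            exact this (dvd_pow h8 two_ne_zero)
          obtain ⟨y, hy⟩ := odd_sq hc'o
          rw [hy] at hc'
          have hmod : (r1 * d' * (2 * r1 + 1)) % 8 = 1 := by
            have e : r1 * d' * (2 * r1 + 1) = 8 * (y - r1 * d' * b) + 1 := by linarith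
            omega
          -- r1 = 7 + 2 d' B1^2
          have e2 : r1 = (8 * k - 1) * s ^ 2 + 2 * (d' * B1 ^ 2) := by
            rw [hd'] at hB1; linarith
          have hr1m : (r1 % 8 = 7) ∨ (r1 + 1 - 2 * d') % 8 = 0 := by
            by_cases hB' : (2 : ℤ) ∣ B1
            · left
              obtain ⟨b', rfl⟩ := hB'
              rw [hz] at e2
              have : r1 = 8 * (8 * (k * z) + k - z + d' * b' ^ 2) - 1 := by linarith
              omega
            · right
              obtain ⟨b', hb'⟩ := odd_sq hB'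
              rw [hz, hb'] at e2
              have : r1 + 1 - 2 * d' = 8 * (8 * (k * z) + k - z + 2 * (d' * b')) := by linarith
              omega
          have hr1o : r1 % 8 = 1 ∨ r1 % 8 = 3 ∨ r1 % 8 = 5 ∨ r1 % 8 = 7 := by omega
          have hd'o : d' % 8 = 1 ∨ d' % 8 = 3 ∨ d' % 8 = 5 ∨ d' % 8 = 7 := by omega
          have key : d' % 8 = 1 ∨ d' % 8 = 7 := by
            rcases hr1o with h8 | h8 | h8 | h8 <;> rcases hd'o with h9 | h9 | h9 | h9 <;>
              first
              | (left; exact h9)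
              | (right; exact h9)
              | (exfalso; simp [Int.mul_emod, Int.add_emod, h8, h9] at hmod; done)
              | (exfalso; omega)
          rcases key with h8 | h8
          · right; right; left; omega
          · right; right; right; omega
      · -- v(r) = 1
        have e1 : 2 * (r' - 2 * (8 * k - 1) * s ^ 2) = d₂ * B ^ 2 := by rw [← h2]; ring
        have o1 : ¬ (2 : ℤ) ∣ r' - 2 * (8 * k - 1) * s ^ 2 := by
          intro h5
          have := dvd_add h5 (⟨(8 * k - 1) * s ^ 2, by ring⟩ : (2 : ℤ) ∣ 2 * (8 * k - 1) * s ^ 2)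
          rw [sub_add_cancel] at this
          exact hr' this
        obtain ⟨d', j, hd', hj⟩ := even_part e1 o1
        -- d' = r' + 2 mod 8
        have hdr : (d' - r' - 2) % 8 = 0 := by
          rw [hz] at hj
          have : d' - r' - 2 = 8 * (2 * z - 16 * (k * z) - 2 * k - j) := by linarith
          omega
        have ew : 4 * ((r' * (r' - 2 * (8 * k - 1) * s ^ 2)) *
            (2 * (r' - (8 * l - 1) * s ^ 2))) = w ^ 2 := by rw [eq]; ring
        obtain ⟨w1, hw1⟩ := sq_even ew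
        -- r' - u s^2 is even
        have h6 : (2 : ℤ) ∣ r' - (8 * l - 1) * s ^ 2 := by
          rw [hz]
          obtain ⟨q, hq⟩ : ∃ q, r' = 2 * q + 1 := ⟨r' / 2, by omega⟩
          exact ⟨q + 1 - 32 * (l * z) - 4 * l + 4 * z, by rw [hq]; ring⟩
        obtain ⟨t, ht⟩ := h6
        rw [ht] at hw1
        have h7 : 4 * ((r' * (r' - 2 * (8 * k - 1) * s ^ 2)) * t) = w1 ^ 2 := by rw [← hw1]; ring
        obtain ⟨w2, hw2⟩ := sq_even h7
        -- t is odd part times a power of four; class of t is that of r' (r' + 2)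
        have ht0 : t ≠ 0 := by
          rintro rfl
          apply w0
          have : w ^ 2 = 0 := by rw [← ew, ht]; ring
          exact pow_eq_zero_iff (two_ne_zero) |>.1 this
        obtain ⟨dt, ut, ht1, hdt, hut⟩ := Pool.Agent.LEG.exists_sqf t ht0
        have h8 : (r' * (r' - 2 * (8 * k - 1) * s ^ 2) * dt) * ut ^ 2 = w2 ^ 2 := by
          rw [← hw2, ht1]; ring
        obtain ⟨c, hc⟩ := sqdiv hut h8
        have odt : ¬ (2 : ℤ) ∣ dt := by
          rintro ⟨e, he⟩
          rw [he] at hc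
          exact two_not (ndvd_mul hr' o1) (sqf_half hdt he) hc
        have hco : ¬ (2 : ℤ) ∣ c := by
          intro h9
          have := ndvd_mul (ndvd_mul hr' o1) odt
          rw [hc] at this
          exact this (dvd_pow h9 two_ne_zero)
        obtain ⟨y, hy⟩ := odd_sq hco
        obtain ⟨a, ha⟩ : ∃ a, r' - 2 * (8 * k - 1) * s ^ 2 = r' + 2 + 8 * a :=
          ⟨2 * z - 16 * (k * z) - 2 * k, by rw [hz]; ring⟩
        rw [ha, hy] at hc
        have hmod : (r' * (r' + 2) * dt) % 8 = 1 := by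
          have e : r' * (r' + 2) * dt = 8 * (y - r' * a * dt) + 1 := by linarith
          omega
        -- r' = 7 + 2 t
        have hr1m : r' % 8 = 7 ∨ (r' + 1 - 2 * dt) % 8 = 0 := by
          by_cases hu : (2 : ℤ) ∣ ut
          · left
            obtain ⟨b', rfl⟩ := hu
            rw [hz] at ht
            have : r' = 8 * (8 * (l * z) + l - z + dt * b' ^ 2) - 1 := by
              rw [ht1] at ht; linarith
            omega
          · right
            obtain ⟨b', hb'⟩ := odd_sq hu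
            rw [hz] at ht
            have : r' + 1 - 2 * dt = 8 * (8 * (l * z) + l - z + 2 * (dt * b')) := by
              rw [ht1, hb'] at ht; linarith
            omega
        have hr1o : r' % 8 = 1 ∨ r' % 8 = 3 ∨ r' % 8 = 5 ∨ r' % 8 = 7 := by omega
        have hdo : dt % 8 = 1 ∨ dt % 8 = 3 ∨ dt % 8 = 5 ∨ dt % 8 = 7 := by omega
        have key : r' % 8 = 5 ∨ r' % 8 = 7 := by
          rcases hr1o with h8 | h8 | h8 | h8 <;> rcases hdo with h9 | h9 | h9 | h9 <;>
            first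
            | (left; exact h8)
            | (right; exact h8)
            | (exfalso; simp [Int.mul_emod, Int.add_emod, h8, h9] at hmod; done)
            | (exfalso; omega)
        rcases key with h8 | h8
        · right; right; right; omega
        · right; right; left; omega
    · -- r odd
      right; left
      have hR2 : ¬ (2 : ℤ) ∣ r - 4 * (8 * k - 1) * s ^ 2 := by
        intro h5
        have := dvd_add h5 (⟨2 * (8 * k - 1) * s ^ 2, by ring⟩ :
          (2 : ℤ) ∣ 4 * (8 * k - 1) * s ^ 2)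
        rw [sub_add_cancel] at this
        exact hr this
      have hR3 : ¬ (2 : ℤ) ∣ r - 2 * (8 * l - 1) * s ^ 2 := by
        intro h5
        have := dvd_add h5 (⟨(8 * l - 1) * s ^ 2, by ring⟩ :
          (2 : ℤ) ∣ 2 * (8 * l - 1) * s ^ 2)
        rw [sub_add_cancel] at this
        exact hr this
      have hw : ¬ (2 : ℤ) ∣ w := by
        intro h3
        have := ndvd_mul (ndvd_mul hr hR2) hR3
        rw [← eq] at this
        exact this (dvd_pow h3 two_ne_zero)
      obtain ⟨y, hy⟩ := odd_sq hw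
      obtain ⟨j2, hj2⟩ := odd_part h2 hR2
      obtain ⟨a, ha⟩ : ∃ a, r - 4 * (8 * k - 1) * s ^ 2 = r + 4 + 8 * a :=
        ⟨4 * z - 32 * (k * z) - 4 * k, by rw [hz]; ring⟩
      obtain ⟨b, hb⟩ : ∃ b, r - 2 * (8 * l - 1) * s ^ 2 = r + 2 + 8 * b :=
        ⟨2 * z - 16 * (l * z) - 2 * l, by rw [hz]; ring⟩
      rw [ha, hb, hy] at eq
      have hmod : (r * (r + 4) * (r + 2)) % 8 = 1 := by
        have e : r * (r + 4) * (r + 2) = 8 * (y - r * a * (r + 2 + 8 * b) - r * (r + 4) * b) + 1 := by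
          linarith
        omega
      have hro : r % 8 = 1 ∨ r % 8 = 3 ∨ r % 8 = 5 ∨ r % 8 = 7 := by omega
      have hr3 : r % 8 = 3 := by
        rcases hro with h4 | h4 | h4 | h4
        · exfalso; simp [Int.mul_emod, Int.add_emod, h4] at hmod
        · exact h4
        · exfalso; simp [Int.mul_emod, Int.add_emod, h4] at hmod
        · exfalso; simp [Int.mul_emod, Int.add_emod, h4] at hmod
      rw [ha] at hj2
      omega

end Pool.Agent.NJ.H21
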